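import Pool.Agent.N343.AS.Stm

/-!
# Project AS (helper343), leaf MER: merging three families of terms

By helper374.
-/

set_option autoImplicit false

open Filter Topology Finset

namespace Pool.Agent.N374.AS.MER

open Pool.Agent.N343.AS

/-- the order of the blocks of five -/
def e5 (s τ : Equiv.Perm ℕ) : ℕ × Fin 5 ≃ ℕ ⊕ ((ℕ × Fin 3) ⊕ ℕ) where
  toFun q := match q with
    | (n, 0) => Sum.inl n
    | (n, 1) => Sum.inr (Sum.inl (s n, 0))
    | (n, 2) => Sum.inr (Sum.inl (s n, 1))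
    | (n, 3) => Sum.inr (Sum.inl (s n, 2))
    | (n, 4) => Sum.inr (Sum.inr (τ n))
  invFun r := match r with
    | Sum.inl n => (n, 0)
    | Sum.inr (Sum.inl (m, 0)) => (s.symm m, 1)
    | Sum.inr (Sum.inl (m, 1)) => (s.symm m, 2)
    | Sum.inr (Sum.inl (m, 2)) => (s.symm m, 3)
    | Sum.inr (Sum.inr m) => (τ.symm m, 4)
  left_inv := by
    rintro ⟨n, i⟩
    fin_cases i <;> simp
  right_inv := by
    rintro (n | ⟨m, k⟩ | m)
    · simp
    · fin_cases k <;> simp
    · simp

theorem perm_tendsto (s : Equiv.Perm ℕ) : Tendsto s atTop atTop := by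
  have := s.injective.tendsto_cofinite
  rwa [Nat.cofinite_eq_atTop] at this

theorem blocks (y : ℕ → ℝ × ℝ) (F : ℕ → Fin 5 → ℝ × ℝ)
    (hy : ∀ K (j : Fin 5), y (K * 5 + j) = F K j) (K : ℕ) :
    ∑ m ∈ range (K * 5), y m = ∑ n ∈ range K, ∑ j, F n j := by
  induction K with
  | zero => simp
  | succ K ih =>
    rw [add_mul, one_mul, Finset.sum_range_add, ih,
      Finset.sum_range_succ (fun n => ∑ j, F n j)]
    congr 1
    rw [Finset.sum_range]
    exact Finset.sum_congr rfl fun j _ => hy K j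

theorem tendsto_blocks (y : ℕ → ℝ × ℝ) (F : ℕ → Fin 5 → ℝ × ℝ)
    (hy : ∀ K (j : Fin 5), y (K * 5 + j) = F K j) (h0 : ∀ j, Tendsto (fun K => F K j) atTop (𝓝 0))
    (p : ℝ × ℝ) (hp : Tendsto (fun K => ∑ n ∈ range K, ∑ j, F n j) atTop (𝓝 p)) :
    Tendsto (fun N => ∑ m ∈ range N, y m) atTop (𝓝 p) := by
  have hdiv : Tendsto (fun m : ℕ => m / 5) atTop atTop := Nat.tendsto_div_const_atTop (by norm_num)
  have h1 : Tendsto (fun m : ℕ => ∑ n ∈ range (m / 5), ∑ j, F n j) atTop (𝓝 p) := hp.comp hdiv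
  have h2 : Tendsto (fun K => ∑ j, ‖F K j‖) atTop (𝓝 0) := by
    have := tendsto_finsetSum (Finset.univ : Finset (Fin 5)) fun j _ => (h0 j).norm
    simpa using this
  have h3 : Tendsto (fun m : ℕ => ∑ j, ‖F (m / 5) j‖) atTop (𝓝 0) := h2.comp hdiv
  have h4 : Tendsto (fun m : ℕ => ∑ j ∈ range (m % 5), y (m / 5 * 5 + j)) atTop (𝓝 0) := by
    refine squeeze_zero_norm (fun m => ?_) h3
    calc ‖∑ j ∈ range (m % 5), y (m / 5 * 5 + j)‖ ≤ ∑ j ∈ range (m % 5), ‖y (m / 5 * 5 + j)‖ :=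
          norm_sum_le _ _
      _ ≤ ∑ j ∈ range 5, ‖y (m / 5 * 5 + j)‖ := by
          apply Finset.sum_le_sum_of_subset_of_nonneg
          · intro j hj
            rw [Finset.mem_range] at hj ⊢
            omega
          · intros
            exact norm_nonneg _
      _ = ∑ j, ‖F (m / 5) j‖ := by
          rw [Finset.sum_range]
          exact Finset.sum_congr rfl fun j _ => by rw [hy]
  have h5 := h1.add h4
  rw [add_zero] at h5
  refine h5.congr fun m => ?_
  rw [← blocks y F hy, ← Finset.sum_range_add, Nat.div_add_mod']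

theorem main (hR : S_RIE) : S_MER := by
  intro x g h hT hP hPh hh hV1 hV2
  rw [Set.eq_univ_iff_forall]
  intro p
  obtain ⟨hh0, hhp, hhn⟩ := hh
  obtain ⟨hV0, hVp, hVn⟩ := hV2
  set T : ℝ × ℝ := ∑' n, x (g.symm (Sum.inl n)) with hTdef
  have hTs : HasSum (fun n => x (g.symm (Sum.inl n))) T := hT.of_norm.hasSum
  have hTt := hTs.tendsto_sum_nat
  obtain ⟨τ, hτ⟩ := hR _ hV0 hVp hVn (p.2 - T.2)
  have hV1' : Summable (fun n => (x (g.symm (Sum.inr (Sum.inr n)))).1) := hV1.of_norm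
  set w : ℝ := ∑' n, (x (g.symm (Sum.inr (Sum.inr n)))).1 with hw
  have hw1 : HasSum (fun n => (x (g.symm (Sum.inr (Sum.inr (τ n))))).1) w :=
    (Equiv.hasSum_iff τ (f := fun n => (x (g.symm (Sum.inr (Sum.inr n)))).1)).2 hV1'.hasSum
  have hwt := hw1.tendsto_sum_nat
  obtain ⟨s, hs⟩ := hR h hh0 hhp hhn (p.1 - T.1 - w)
  refine ⟨(Nat.divModEquiv 5).trans ((e5 s τ).trans g.symm), ?_⟩
  refine tendsto_blocks _ (fun n j => x (g.symm (e5 s τ (n, j)))) ?_ ?_ p ?_
  · intro K j
    have h1 : Nat.divModEquiv 5 (K * 5 + j) = (K, j) := (Nat.divModEquiv 5).apply_symm_apply (K, j)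
    simp only [Equiv.trans_apply, h1]
  · have hts := perm_tendsto s
    have htτ := perm_tendsto τ
    have hV : Tendsto (fun n => x (g.symm (Sum.inr (Sum.inr n)))) atTop (𝓝 0) := by
      rw [Prod.tendsto_iff]
      exact ⟨hV1'.tendsto_atTop_zero, hV0⟩
    intro j
    fin_cases j
    · exact hT.of_norm.tendsto_atTop_zero
    · exact (hP 0).comp hts
    · exact (hP 1).comp hts
    · exact (hP 2).comp hts
    · exact hV.comp htτ
  · have hW : ∀ n, ∑ j, x (g.symm (e5 s τ (n, j))) =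
        x (g.symm (Sum.inl n)) + (h (s n), 0) + x (g.symm (Sum.inr (Sum.inr (τ n)))) := by
      intro n
      have h3 := hPh (s n)
      rw [Fin.sum_univ_three] at h3
      rw [Fin.sum_univ_five, ← h3]
      simp only [e5, Equiv.coe_fn_mk]
      abel
    simp only [hW]
    rw [Prod.tendsto_iff]
    constructor
    · have hT1 : Tendsto (fun N => ∑ n ∈ range N, (x (g.symm (Sum.inl n))).1) atTop (𝓝 T.1) := by
        have := ((Prod.tendsto_iff _ _).1 hTt).1
        simpa only [Prod.fst_sum] using this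
      have h4 := (hT1.add hs).add hwt
      have h5 : T.1 + (p.1 - T.1 - w) + w = p.1 := by ring
      rw [h5] at h4
      refine h4.congr fun N => ?_
      rw [Prod.fst_sum, ← Finset.sum_add_distrib, ← Finset.sum_add_distrib]
      rfl
    · have hT2 : Tendsto (fun N => ∑ n ∈ range N, (x (g.symm (Sum.inl n))).2) atTop (𝓝 T.2) := by
        have := ((Prod.tendsto_iff _ _).1 hTt).2
        simpa only [Prod.snd_sum] using this
      have h4 := hT2.add hτ
      have h5 : T.2 + (p.2 - T.2) = p.2 := by ring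
      rw [h5] at h4
      refine h4.congr fun N => ?_
      rw [Prod.snd_sum, ← Finset.sum_add_distrib]
      refine Finset.sum_congr rfl fun n _ => ?_
      simp

end Pool.Agent.N374.AS.MER
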